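import Pool.Agent.NPC.Defs

/-!
# The class `AM`
-/

namespace Pool.Agent.H593R3.UPC

open Pool.Agent.NPC

/-- The class `AM` with perfect completeness: the strings `r` are the random challenges, of length
`a |x|`, and `C` is a language in `NP` (a string in `C` is a challenge that can be answered). -/
def InAM (L : Set (List Bool)) : Prop :=
  ∃ (C : Set (List Bool)) (a : Polynomial ℕ), InNP C ∧ ∀ x : List Bool,
    (x ∈ L → ∀ r : List Bool, r.length = a.eval x.length → pairBits x r ∈ C) ∧
    (x ∉ L → 2 * {r : List Bool | r.length = a.eval x.length ∧ pairBits x r ∈ C}.ncard ≤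
      2 ^ a.eval x.length)

end Pool.Agent.H593R3.UPC
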