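import Pool.Agent.H593R3.UPC.Main
import Pool.Agent.H593R3.UPC.AMDefs
import Pool.Agent.H579R2.Spt.VV2

/-!
# An OR-compression of an `NP`-hard language puts `coNP` into `AM`
-/

namespace Pool.Agent.H593R3.UPC

open Pool.Agent.NPC Pool.Agent.H622R2 Finset
open Pool.Agent.H579R2.Spt (BL mem_BL ip cd rowsL surv ind Iso acc exists_scale iso_count amplify
  card_short card_BL ind_not)

/-! ### Conjunctions of polynomially many questions in `NP` -/

/-- the list of strings coded by a string -/
def dls (s : List Bool) : List (List Bool) := (unbits (List (List Bool)) s).getD []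

theorem dls_bits (s : List (List Bool)) : dls (bits s) = s := by
  unfold dls
  rw [unbits_bits]
  rfl

theorem poly_dls : Poly dls :=
  (Poly.optCases (o := unbits (List (List Bool))) (g := fun _ => ([] : List (List Bool)))
    (h := fun _ b => b) poly_unbits (NPC.Poly.const _) (Poly.snd Poly.id)).congr fun s => by
      unfold dls
      cases unbits (List (List Bool)) s <;> rfl

theorem mem_zip_map {α β : Type} (l : List α) (c : α → β) (q : α × β)
    (h : q ∈ l.zip (l.map c)) : q.1 ∈ l ∧ q.2 = c q.1 := by
  induction l with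
  | nil => simp at h
  | cons a l ih =>
    rw [List.map_cons, List.zip_cons_cons, List.mem_cons] at h
    rcases h with h | h
    · rw [h]; simp
    · exact ⟨List.mem_cons_of_mem _ (ih h).1, (ih h).2⟩

theorem inNP_all {L : Set (List Bool)} (hL : InNP L) {f : List Bool → List (List Bool)}
    (hf : Poly f) : InNP {y | ∀ z ∈ f y, z ∈ L} := by
  classical
  obtain ⟨V, p, hV, hLV⟩ := hL
  have pV := poly_of_polyTime hV
  obtain ⟨r, hr⟩ := hf.sz_le
  set W : List Bool → Bool := fun t =>
    decide ((dls (unpair t).2).length = (f (unpair t).1).length) &&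
      ((f (unpair t).1).zip (dls (unpair t).2)).all (fun zw =>
        decide (zw.2.length ≤ p.eval zw.1.length) && decide (V (pairBits zw.1 zw.2) = [true]))
    with hW
  have hWp : Poly W := by
    refine Poly.and (Poly.decide_eq (Poly.length (poly_dls.comp (Poly.snd poly_unpair)))
      (Poly.length (hf.comp (Poly.fst poly_unpair)))) (Poly.all (p := fun _ zw =>
        decide (zw.2.length ≤ p.eval zw.1.length) && decide (V (pairBits zw.1 zw.2) = [true]))
        (Poly.zip (hf.comp (Poly.fst poly_unpair)) (poly_dls.comp (Poly.snd poly_unpair)))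
        (Poly.and (Poly.decide_le (Poly.length (Poly.snd (Poly.snd Poly.id)))
          ((UPoly.length (Poly.fst (Poly.snd Poly.id))).eval p).toPoly)
          (Poly.decide_eq (pV.comp (poly_pairBits (Poly.fst (Poly.snd Poly.id))
            (Poly.snd (Poly.snd Poly.id)))) (NPC.Poly.const _))))
  set Mp : Polynomial ℕ := r.comp (Polynomial.C 4 * Polynomial.X + Polynomial.C 1) with hMp
  set Pp : Polynomial ℕ := Mp * (Polynomial.C 4 * p.comp Mp + Polynomial.C 2) + Polynomial.C 1
    with hPp
  have eM : ∀ n, Mp.eval n = r.eval (4 * n + 1) := by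
    intro n
    simp only [hMp, Polynomial.eval_comp, Polynomial.eval_add, Polynomial.eval_mul,
      Polynomial.eval_C, Polynomial.eval_X]
  have eP : ∀ n, Pp.eval n = Mp.eval n * (4 * p.eval (Mp.eval n) + 2) + 1 := by
    intro n
    simp only [hPp, Polynomial.eval_comp, Polynomial.eval_add, Polynomial.eval_mul,
      Polynomial.eval_C]
  refine ⟨fun t => [W t], Pp, polyTime_of_poly hWp, fun y => ?_⟩
  have hWy : ∀ w : List Bool, [W (pairBits y w)] = [true] ↔ (dls w).length = (f y).length ∧
      ∀ zw ∈ (f y).zip (dls w), zw.2.length ≤ p.eval zw.1.length ∧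
        V (pairBits zw.1 zw.2) = [true] := by
    intro w
    rw [hW]
    simp only [unpair_pairBits, List.cons.injEq, and_true, Bool.and_eq_true, decide_eq_true_eq,
      List.all_eq_true]
  constructor
  · intro hy
    have hy' : ∀ z ∈ f y, ∃ w : List Bool, w.length ≤ p.eval z.length ∧
        V (pairBits z w) = [true] := fun z hz => (hLV z).1 (hy z hz)
    choose! c hc using hy'
    refine ⟨bits ((f y).map c), ?_, ?_⟩
    · rw [bits_length]
      have h1 := hr y
      have h2 := sz_listBool_le y
      have h3 : sz (f y) ≤ Mp.eval y.length := by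
        rw [eM]
        exact h1.trans (eval_mono _ h2)
      have h4 := length_lt_sz (f y)
      have h5 : ∀ z ∈ (f y).map c, z.length ≤ p.eval (Mp.eval y.length) := by
        intro z hz
        obtain ⟨u, hu, rfl⟩ := List.mem_map.1 hz
        have h6 := sz_le_of_mem hu
        have h7 := length_lt_sz u
        exact (hc u hu).1.trans (eval_mono _ (by omega))
      have h8 := sz_strs (m := Mp.eval y.length) (k := p.eval (Mp.eval y.length))
        (l := (f y).map c) (by rw [List.length_map]; omega) h5
      rw [eP]
      exact h8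
    · rw [hWy, dls_bits]
      refine ⟨by simp, ?_⟩
      intro zw hzw
      obtain ⟨h1, h2⟩ := mem_zip_map (f y) c zw hzw
      rw [h2]
      exact hc _ h1
  · rintro ⟨w, _, hw⟩
    rw [hWy] at hw
    intro z hz
    obtain ⟨i, hi, rfl⟩ := List.getElem_of_mem hz
    have hi' : i < (dls w).length := by rw [hw.1]; exact hi
    have h1 : ((f y)[i], (dls w)[i]) ∈ (f y).zip (dls w) := by
      have hlt : i < ((f y).zip (dls w)).length := by
        rw [List.length_zip]
        omega
      have h2 := List.getElem_mem hlt
      rwa [List.getElem_zip] at h2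
    exact (hLV _).2 ⟨_, hw.2 _ h1⟩

/-! ### Polynomial-time operations -/

theorem drop_aux {β : Type} : ∀ (l : List β) (k j : ℕ),
    ((l.zipIdx j).filter (fun q => decide (j + k ≤ q.2))).map Prod.fst = l.drop k := by
  intro l
  induction l with
  | nil => intro k j; simp
  | cons a l ih =>
    intro k j
    rw [List.zipIdx_cons]
    cases k with
    | zero =>
      have h : ((a, j) :: l.zipIdx (j + 1)).filter (fun q => decide (j + 0 ≤ q.2)) =
          (a, j) :: l.zipIdx (j + 1) := by
        rw [List.filter_eq_self]
        intro q hq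
        rcases List.mem_cons.1 hq with h | h
        · rw [h]; simp
        · have := List.le_snd_of_mem_zipIdx h
          simp only [decide_eq_true_eq]
          omega
      rw [h, List.drop_zero, List.map_cons, List.zipIdx_map_fst]
    | succ k =>
      rw [List.filter_cons_of_neg (by simp), List.drop_succ_cons]
      have e : j + (k + 1) = j + 1 + k := by omega
      rw [e, ih k (j + 1)]

theorem drop_poly' {α β : Type} [TEnc α] [TEnc β] {l : α → List β} {k : α → ℕ} (hl : Poly l)
    (hk : Poly k) : Poly (fun a => (l a).drop (k a)) := by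
  have h : Poly (fun a => ((l a).zipIdx.filter (fun q => decide (k a ≤ q.2))).map Prod.fst) :=
    NPC.Poly.map (F := fun _ (q : β × ℕ) => q.1)
      (NPC.Poly.filter (p := fun a (q : β × ℕ) => decide (k a ≤ q.2)) (NPC.Poly.zipIdx hl)
        (NPC.Poly.decide_le (hk.comp (NPC.Poly.fst NPC.Poly.id))
          (NPC.Poly.snd (NPC.Poly.snd NPC.Poly.id)))) (NPC.Poly.fst (NPC.Poly.snd NPC.Poly.id))
  refine h.congr fun a => ?_
  have := drop_aux (l a) (k a) 0
  simpa using this

theorem take_aux {β : Type} : ∀ (l : List β) (k j : ℕ),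
    ((l.zipIdx j).filter (fun q => decide (q.2 < j + k))).map Prod.fst = l.take k := by
  intro l
  induction l with
  | nil => intro k j; simp
  | cons a l ih =>
    intro k j
    rw [List.zipIdx_cons]
    cases k with
    | zero =>
      have h : ((a, j) :: l.zipIdx (j + 1)).filter (fun q => decide (q.2 < j + 0)) = [] := by
        rw [List.filter_eq_nil_iff]
        intro q hq
        rcases List.mem_cons.1 hq with h | h
        · rw [h]; simp
        · have := List.le_snd_of_mem_zipIdx h
          simp only [decide_eq_true_eq]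
          omega
      rw [h]; simp
    | succ k =>
      rw [List.filter_cons_of_pos (by simp), List.map_cons, List.take_succ_cons]
      have e : j + (k + 1) = j + 1 + k := by omega
      rw [e, ih k (j + 1)]

theorem take_poly' {α β : Type} [TEnc α] [TEnc β] {l : α → List β} {k : α → ℕ} (hl : Poly l)
    (hk : Poly k) : Poly (fun a => (l a).take (k a)) := by
  have h : Poly (fun a => ((l a).zipIdx.filter (fun q => decide (q.2 < k a))).map Prod.fst) :=
    NPC.Poly.map (F := fun _ (q : β × ℕ) => q.1)
      (NPC.Poly.filter (p := fun a (q : β × ℕ) => decide (q.2 < k a)) (NPC.Poly.zipIdx hl)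
        (NPC.Poly.decide_lt (NPC.Poly.snd (NPC.Poly.snd NPC.Poly.id))
          (hk.comp (NPC.Poly.fst NPC.Poly.id)))) (NPC.Poly.fst (NPC.Poly.snd NPC.Poly.id))
  refine h.congr fun a => ?_
  have := take_aux (l a) (k a) 0
  simpa using this

theorem ip_poly {α : Type} [TEnc α] {a c : α → List Bool} (ha : Poly a) (hc : Poly c) :
    Poly (fun x => ip (a x) (c x)) := by
  unfold ip
  refine NPC.Poly.foldr (l := fun x => (a x).zip (c x)) (s := fun _ => false)
    (F := fun _ p s => xor (p.1 && p.2) s) (NPC.Poly.zip ha hc) (NPC.Poly.const _) ?_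
    (Polynomial.C 3) ?_
  · exact NPC.Poly.xor (NPC.Poly.and
      (NPC.Poly.fst (NPC.Poly.fst (NPC.Poly.snd NPC.Poly.id)))
      (NPC.Poly.snd (NPC.Poly.fst (NPC.Poly.snd NPC.Poly.id))))
      (NPC.Poly.snd (NPC.Poly.snd NPC.Poly.id))
  · intro x k _
    rw [Polynomial.eval_C]
    exact sz_bool_le _

theorem rowsL_poly {α : Type} [TEnc α] {m k : α → ℕ} {r : α → List Bool} (hm : Poly m)
    (hk : UPoly k) (hr : Poly r) : Poly (fun x => rowsL (m x) (k x) (r x)) := by
  unfold rowsL
  refine NPC.Poly.map (l := fun x => List.range (k x))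
    (F := fun x i => ((r x).drop (i * m x)).take (m x)) hk.range ?_
  exact take_poly' (drop_poly' (hr.comp (NPC.Poly.fst NPC.Poly.id))
    (NPC.Poly.mul (NPC.Poly.snd NPC.Poly.id) (hm.comp (NPC.Poly.fst NPC.Poly.id))))
    (hm.comp (NPC.Poly.fst NPC.Poly.id))

theorem bits_poly {α : Type} [TEnc α] : Poly (fun a : α => bits a) := by
  have h1 : PC (bits : α → List Bool) (fun x : List Bool => x) (fun a : α => bits a) :=
    PC.id (ea := (bits : α → List Bool))
  exact PC.comp (g := fun x => x) (f := fun a : α => bits a) PC.rawIn h1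

/-- the verifier restricted by rows of inner products -/
def gv (V : List Bool → List Bool) (p : Polynomial ℕ) (x w : List Bool)
    (rows : List (List Bool)) : Bool :=
  decide (w.length ≤ p.eval x.length) && decide (V (pairBits x w) = [true]) &&
    rows.all (fun a => !ip a (cd w))

/-- the input coded by a string -/
def dir (s : List Bool) : List Bool × List (List Bool) :=
  (unbits (List Bool × List (List Bool)) s).getD ([], [])

theorem dir_bits (s : List Bool × List (List Bool)) : dir (bits s) = s := by
  unfold dir
  rw [unbits_bits]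
  rfl

theorem poly_dir : Poly dir :=
  (Poly.optCases (o := unbits (List Bool × List (List Bool)))
    (g := fun _ => (([], []) : List Bool × List (List Bool)))
    (h := fun _ b => b) poly_unbits (NPC.Poly.const _) (Poly.snd Poly.id)).congr fun s => by
      unfold dir
      cases unbits (List Bool × List (List Bool)) s <;> rfl

/-- the restricted verifier as a function of the input -/
def gV (V : List Bool → List Bool) (p : Polynomial ℕ) (y : List Bool) : Bool :=
  gv V p (dir (unpair y).1).1 (unpair y).2 (dir (unpair y).1).2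

theorem gV_poly {V : List Bool → List Bool} (hV : Poly V) (p : Polynomial ℕ) :
    Poly (gV V p) := by
  have e1 : Poly (fun y : List Bool => (dir (unpair y).1).1) :=
    Poly.fst (poly_dir.comp (Poly.fst poly_unpair))
  have e2 : Poly (fun y : List Bool => (dir (unpair y).1).2) :=
    Poly.snd (poly_dir.comp (Poly.fst poly_unpair))
  have e3 : Poly (fun y : List Bool => (unpair y).2) := Poly.snd poly_unpair
  refine Poly.and (Poly.and (Poly.decide_le (Poly.length e3)
    ((UPoly.length e1).eval p).toPoly) (Poly.decide_eq (hV.comp (poly_pairBits e1 e3))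
      (NPC.Poly.const _))) (Poly.all (p := fun y a => !ip a (cd (unpair y).2)) e2 (Poly.not ?_))
  unfold cd
  exact ip_poly (Poly.snd Poly.id) (Poly.append (e3.comp (Poly.fst Poly.id)) (NPC.Poly.const _))

theorem gV_iff (V : List Bool → List Bool) (p : Polynomial ℕ) (x : List Bool)
    (rows : List (List Bool)) (w : List Bool) :
    (w.length ≤ p.eval (bits (x, rows)).length ∧ [gV V p (pairBits (bits (x, rows)) w)] = [true]) ↔
      (w.length ≤ p.eval x.length ∧ V (pairBits x w) = [true]) ∧
        rows.all (fun a => !ip a (cd w)) = true := by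
  have h1 : gV V p (pairBits (bits (x, rows)) w) = gv V p x w rows := by
    unfold gV
    rw [unpair_pairBits]
    simp only [dir_bits]
  rw [h1]
  unfold gv
  simp only [List.cons.injEq, and_true, Bool.and_eq_true, decide_eq_true_eq]
  constructor
  · rintro ⟨_, h⟩
    exact h
  · rintro h
    refine ⟨h.1.1.trans (eval_mono p ?_), h⟩
    rw [bits_length, sz_pair]
    have := length_lt_sz x
    omega

/-- the instances of one trial -/
def trI (p : Polynomial ℕ) (x ρ : List Bool) : List (List Bool) :=
  (List.range (p.eval x.length + 3)).map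
    (fun k => bits (x, rowsL (p.eval x.length + 1) (min k (p.eval x.length + 3)) ρ))

theorem trI_poly (p : Polynomial ℕ) :
    Poly (fun q : List Bool × List Bool => trI p q.1 q.2) := by
  have u1 : UPoly (fun q : List Bool × List Bool => p.eval q.1.length) :=
    (UPoly.length (NPC.Poly.fst NPC.Poly.id)).eval p
  unfold trI
  refine NPC.Poly.map (l := fun q : List Bool × List Bool => List.range (p.eval q.1.length + 3))
    (F := fun q k => bits (q.1, rowsL (p.eval q.1.length + 1)
      (min k (p.eval q.1.length + 3)) q.2))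
    (u1.add (UPoly.const 3)).range ?_
  have e0 : Poly (fun q : (List Bool × List Bool) × ℕ => q.1) := NPC.Poly.fst NPC.Poly.id
  have e1 : Poly (fun q : (List Bool × List Bool) × ℕ => q.1.1) := NPC.Poly.fst e0
  have e2 : Poly (fun q : (List Bool × List Bool) × ℕ => q.1.2) := NPC.Poly.snd e0
  have e3 : Poly (fun q : (List Bool × List Bool) × ℕ => q.2) := NPC.Poly.snd NPC.Poly.id
  have u2 : UPoly (fun q : (List Bool × List Bool) × ℕ => p.eval q.1.1.length) := u1.comp e0
  have u3 : UPoly (fun q : (List Bool × List Bool) × ℕ => min q.2 (p.eval q.1.1.length + 3)) :=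
    UPoly.of_le (NPC.Poly.min e3 (u2.add (UPoly.const 3)).toPoly) (u2.add (UPoly.const 3))
      (fun _ => min_le_right _ _)
  exact bits_poly.comp (NPC.Poly.pair e1
    (rowsL_poly (u2.add (UPoly.const 1)).toPoly u3 e2))

/-- the instances of four trials -/
def fourI (p : Polynomial ℕ) (n : ℕ) (x r : List Bool) : List (List Bool) :=
  trI p x (r.take n) ++ (trI p x ((r.drop n).take n) ++ (trI p x (((r.drop n).drop n).take n) ++
    trI p x ((((r.drop n).drop n).drop n).take n)))

theorem acc_four (G : List Bool → Bool) (n : ℕ) (r : List Bool) :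
    acc G n 4 r = (G (r.take n) || (G ((r.drop n).take n) ||
      (G (((r.drop n).drop n).take n) || G ((((r.drop n).drop n).drop n).take n)))) := by
  simp only [acc, Bool.or_false]

theorem sum_ind_eq (n : ℕ) (G : List Bool → Bool) :
    ∑ r ∈ BL n, ind (G r) = (({r : List Bool | r.length = n ∧ G r = true}.ncard : ℕ) : ℤ) := by
  have h1 : {r : List Bool | r.length = n ∧ G r = true} =
      ↑((BL n).filter (fun r => G r = true)) := by
    ext r; simp
  rw [h1, Set.ncard_coe_finset, Finset.card_filter]
  push_cast
  exact Finset.sum_congr rfl fun r _ => by simp only [ind]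

/-- **Second main theorem.** -/
theorem conp_am {R S : Set (List Bool)} (hR : NPHard R) (hS : ORComp R S)
    {L : Set (List Bool)} (hL : InNP L) : InAM Lᶜ := by
  classical
  obtain ⟨V, p, hV, hLV⟩ := hL
  have pV := poly_of_polyTime hV
  obtain ⟨L1, hL1, hm⟩ := main hR hS (fun y => [gV V p y]) p (polyTime_of_poly (gV_poly pV p))
  set pn : Polynomial ℕ := (p + 2) * (p + 1) with hpn
  have epn : ∀ x : List Bool,
      pn.eval x.length = (p.eval x.length + 2) * (p.eval x.length + 1) := by
    intro x
    rw [hpn]
    simp
  set f : List Bool → List (List Bool) := fun y =>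
    fourI p (pn.eval (unpair y).1.length) (unpair y).1 (unpair y).2 with hf
  have hfp : Poly f := by
    have e1 : Poly (fun y : List Bool => (unpair y).1) := NPC.Poly.fst poly_unpair
    have e2 : Poly (fun y : List Bool => (unpair y).2) := NPC.Poly.snd poly_unpair
    have e3 : Poly (fun y : List Bool => pn.eval (unpair y).1.length) :=
      ((UPoly.length e1).eval pn).toPoly
    have key : ∀ {g : List Bool → List Bool}, Poly g → Poly (fun y : List Bool =>
        trI p (unpair y).1 ((g y).take (pn.eval (unpair y).1.length))) := by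
      intro g hg
      exact (trI_poly p).comp (NPC.Poly.pair e1 (take_poly' hg e3))
    have d1 := drop_poly' e2 e3
    have d2 := drop_poly' d1 e3
    have d3 := drop_poly' d2 e3
    exact Poly.append (key e2) (Poly.append (key d1) (Poly.append (key d2) (key d3)))
  refine ⟨{y | ∀ z ∈ f y, z ∈ L1}, Polynomial.C 4 * pn, inNP_all hL1 hfp, fun x => ?_⟩
  have hl : (Polynomial.C 4 * pn).eval x.length = 4 * pn.eval x.length := by simp
  rw [hl]
  set n : ℕ := pn.eval x.length with hn
  set G : List Bool → Bool := fun ρ => decide (∃ z ∈ trI p x ρ, z ∉ L1) with hG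
  have hGf : ∀ ρ, G ρ = false ↔ ∀ z ∈ trI p x ρ, z ∈ L1 := by
    intro ρ
    rw [hG]
    simp
  have hC : ∀ r, pairBits x r ∈ {y | ∀ z ∈ f y, z ∈ L1} ↔ (!acc G n 4 r) = true := by
    intro r
    rw [acc_four]
    simp only [Bool.not_eq_true', Bool.or_eq_false_iff, hGf]
    rw [Set.mem_ofPred_eq, hf]
    simp only [unpair_pairBits, fourI, List.mem_append, or_imp, forall_and]
    exact Iff.rfl
  constructor
  · intro hx r _
    rw [hC, Bool.not_eq_true', acc_four]
    have hGx : ∀ ρ, G ρ = false := by
      intro ρ
      rw [hGf]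
      intro z hz
      obtain ⟨k, _, rfl⟩ := List.mem_map.1 hz
      refine (hm _).1 ?_
      rintro ⟨w, hw⟩
      rw [gV_iff] at hw
      exact hx ((hLV x).2 ⟨w, hw.1⟩)
    simp only [hGx, Bool.or_false]
  · intro hx
    have hx' : x ∈ L := not_not.1 hx
    set m : ℕ := p.eval x.length + 1 with hm'
    have hfin : {w : List Bool | w.length ≤ p.eval x.length ∧ V (pairBits x w) = [true]}.Finite :=
      (List.finite_length_le Bool (p.eval x.length)).subset fun w hw => hw.1
    set W : Finset (List Bool) := hfin.toFinset with hW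
    have hWm : ∀ w, w ∈ W ↔ w.length ≤ p.eval x.length ∧ V (pairBits x w) = [true] :=
      fun w => by rw [hW]; simp
    have hWs : ∀ w ∈ W, w.length + 1 ≤ m := fun w hw => by
      have := ((hWm w).1 hw).1
      omega
    have hW1 : 1 ≤ W.card := by
      obtain ⟨w, hw⟩ := (hLV x).1 hx'
      exact Finset.card_pos.2 ⟨w, (hWm w).2 hw⟩
    obtain ⟨k, hkm, hk1, hk2⟩ := exists_scale W.card m hW1 (card_short m W hWs)
    obtain ⟨s, hs⟩ : ∃ s, n = k * m + s := by
      refine ⟨n - k * m, ?_⟩
      have : k * m ≤ n := by
        rw [hn, epn]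
        exact Nat.mul_le_mul (by omega) (le_of_eq hm')
      omega
    have hGi : ∀ r, (∃ w, Iso m k W r w) → G r = true := by
      rintro r ⟨w, hw1, hw2, hw3⟩
      rw [hG]
      simp only [decide_eq_true_eq]
      refine ⟨bits (x, rowsL m k r), ?_, ?_⟩
      · unfold trI
        rw [List.mem_map]
        refine ⟨k, List.mem_range.2 (by omega), ?_⟩
        rw [min_eq_left (by omega : k ≤ p.eval x.length + 3)]
      · refine (hm _).2 ⟨w, (gV_iff V p x _ w).2 ⟨(hWm w).1 hw1, hw2⟩, ?_⟩
        intro w' hw'
        have h := (gV_iff V p x _ w').1 hw'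
        exact hw3 w' ((hWm w').2 h.1) h.2
    have h1 := iso_count m s W hWs k hk1 hk2 G hGi
    rw [← hs] at h1
    have h2 := amplify G n h1
    have h3 : {r : List Bool | r.length = 4 * n ∧ pairBits x r ∈ {y | ∀ z ∈ f y, z ∈ L1}} =
        {r : List Bool | r.length = 4 * n ∧ (!acc G n 4 r) = true} := by
      ext r
      exact and_congr_right fun _ => hC r
    rw [h3]
    have h4 := sum_ind_eq (4 * n) (fun r => !acc G n 4 r)
    rw [Finset.sum_congr rfl (fun r _ => ind_not (acc G n 4 r)), Finset.sum_sub_distrib] at h4
    have h5 : ∑ r ∈ BL (4 * n), (1 : ℤ) = 2 ^ (4 * n) := by rw [← card_BL]; simp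
    rw [h5] at h4
    have h6 : (2 : ℤ) * (({r : List Bool | r.length = 4 * n ∧
        (!acc G n 4 r) = true}.ncard : ℕ) : ℤ) ≤ 2 ^ (4 * n) := by
      rw [← h4]
      linarith
    exact_mod_cast h6

end Pool.Agent.H593R3.UPC
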