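import Pool.Agent.H593R3.UPC.Prune

/-!
# The proof system and its soundness
-/

namespace Pool.Agent.H593R3.UPC

open Pool.Agent.NPC Pool.Agent.H622R2

/-- membership in a list, as a bit -/
def memB (z : List Bool) (l : List (List Bool)) : Bool := l.any fun y => decide (y = z)

theorem memB_iff (z : List Bool) (l : List (List Bool)) : memB z l = true ↔ z ∈ l := by
  unfold memB
  rw [List.any_eq_true]
  constructor
  · rintro ⟨y, hy, h⟩
    rw [decide_eq_true_iff] at h
    rwa [← h]
  · intro h
    exact ⟨z, h, decide_eq_true rfl⟩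

theorem poly_memB {α : Type} [TEnc α] {z : α → List Bool} {l : α → List (List Bool)}
    (hz : Poly z) (hl : Poly l) : Poly (fun a => memB (z a) (l a)) :=
  Poly.any (p := fun a y => decide (y = z a)) hl
    (Poly.decide_eq (Poly.snd Poly.id) (hz.comp (Poly.fst Poly.id)))

/-- a pair of lists -/
abbrev En : Type := List (List Bool) × List (List Bool)

/-- one level of a certificate: the live nodes, and the collisions for the next level -/
abbrev Lv : Type := List (List Bool) × List En

/-- the children -/
def kids (C : List (List Bool)) : List (List Bool) :=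
  C.flatMap fun v => [v ++ [false], v ++ [true]]

/-- the instances for the nodes `H` -/
def inst (f : List Bool → List Bool) (x : List Bool) (H : List (List Bool)) : List Bool :=
  enc (H.map fun v => f (pairBits x v))

/-- the collision `en` excludes the node `v` -/
def chkE (D f : List Bool → List Bool) (x : List Bool) (E : List (List Bool)) (v : List Bool)
    (en : En) : Bool :=
  (memB v en.1 && !(memB v en.2)) && (!(en.2.isEmpty) &&
    ((en.1.all fun u => memB u E) && ((en.2.all fun u => memB u E) &&
      decide (D (inst f x en.1) = D (inst f x en.2)))))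

/-- the check of one level -/
def chkL (D f V : List Bool → List Bool) (x : List Bool) (a b : Lv) : Bool :=
  (a.1.all fun v => !(decide (V (pairBits x v) = [true]))) &&
    ((b.1.all fun v => memB v (kids a.1)) &&
      ((kids a.1).all fun v => memB v b.1 || a.2.any fun en => chkE D f x (kids a.1) v en))

/-- the check of a certificate -/
def chk (D f V : List Bool → List Bool) (p : Polynomial ℕ) (x : List Bool) (cs : List Lv) :
    Bool :=
  decide (cs.length = p.eval x.length + 2) && (decide ((cs.map Prod.fst).head? = some [[]]) &&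
    (cs.zip cs.tail).all fun ab => chkL D f V x ab.1 ab.2)

section
variable {D f V : List Bool → List Bool} {x : List Bool}

theorem length_kids {C : List (List Bool)} {i : ℕ} (h : ∀ v ∈ C, v.length = i) :
    ∀ v ∈ kids C, v.length = i + 1 := by
  intro v hv
  unfold kids at hv
  rw [List.mem_flatMap] at hv
  obtain ⟨u, hu, huv⟩ := hv
  have h1 := h u hu
  simp only [List.mem_cons, List.not_mem_nil, or_false] at huv
  rcases huv with rfl | rfl <;> simp [h1]

theorem mem_kids {C : List (List Bool)} {u : List Bool} (hu : u ∈ C) (b : Bool) :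
    u ++ [b] ∈ kids C := by
  unfold kids
  rw [List.mem_flatMap]
  refine ⟨u, hu, ?_⟩
  cases b <;> simp

/-- **Soundness**: there is no certificate if there is exactly one witness. -/
theorem sound {S : Set (List Bool)} {O : List Bool → Prop}
    (hD : ∀ H : List (List Bool), H ≠ [] → (D (inst f x H) ∈ S ↔ ∃ v ∈ H, O v))
    {w : List Bool} (hO : ∀ v, O v ↔ v <+: w) (hw : V (pairBits x w) = [true])
    {p : Polynomial ℕ} (hwl : w.length ≤ p.eval x.length) (cs : List Lv) :
    ¬ chk D f V p x cs = true := by
  intro hchk
  unfold chk at hchk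
  rw [Bool.and_eq_true, Bool.and_eq_true, decide_eq_true_iff, decide_eq_true_iff,
    List.all_eq_true] at hchk
  obtain ⟨hlen, hhead, hall⟩ := hchk
  have hL : ∀ i (hi : i + 1 < cs.length), chkL D f V x cs[i] cs[i + 1] = true := by
    intro i hi
    have h1 : i < (cs.zip cs.tail).length := by
      rw [List.length_zip, List.length_tail]
      omega
    have h2 : (cs.zip cs.tail)[i] = (cs[i], cs[i + 1]) := by
      rw [List.getElem_zip]
      simp
    have h3 := hall _ (List.getElem_mem h1)
    rw [h2] at h3
    exact h3
  have h0 : 0 < cs.length := by omega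
  have key : ∀ i (hi : i < cs.length), (∀ v ∈ (cs[i]).1, v.length = i) ∧
      (i ≤ w.length → w.take i ∈ (cs[i]).1) := by
    intro i
    induction i with
    | zero =>
      intro hi
      have h1 : (cs[0]).1 = [[]] := by
        have h2 : (cs.map Prod.fst).head? = some (cs[0]).1 := by
          rw [List.head?_eq_getElem?, List.getElem?_map, List.getElem?_eq_getElem h0]
          rfl
        rw [h2, Option.some.injEq] at hhead
        exact hhead
      rw [h1]
      simp
    | succ i ih =>
      intro hi
      obtain ⟨h1, h2⟩ := ih (by omega)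
      have h3 := hL i hi
      unfold chkL at h3
      rw [Bool.and_eq_true, Bool.and_eq_true, List.all_eq_true, List.all_eq_true,
        List.all_eq_true] at h3
      obtain ⟨_, h5, h6⟩ := h3
      have hk := length_kids h1
      refine ⟨fun v hv => hk v ((memB_iff _ _).1 (h5 v hv)), fun hiw => ?_⟩
      have h7 := h2 (by omega)
      have h8 : w.take (i + 1) = w.take i ++ [w[i]] := by
        rw [List.take_succ_eq_append_getElem (by omega)]
      have h9 : w.take (i + 1) ∈ kids (cs[i]).1 := by
        rw [h8]
        exact mem_kids h7 _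
      have h10 := h6 _ h9
      rw [Bool.or_eq_true, memB_iff, List.any_eq_true] at h10
      rcases h10 with h10 | ⟨en, _, hen⟩
      · exact h10
      · exfalso
        unfold chkE at hen
        simp only [Bool.and_eq_true, Bool.not_eq_true', List.all_eq_true, memB_iff,
          decide_eq_true_eq, List.isEmpty_eq_false_iff] at hen
        obtain ⟨⟨k1, k2⟩, k3, k4, k5, k6⟩ := hen
        have k2' : w.take (i + 1) ∉ en.2 := by
          intro h
          rw [(memB_iff _ _).2 h] at k2
          exact absurd k2 (by simp)
        have k7 : D (inst f x en.1) ∈ S :=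
          (hD en.1 (List.ne_nil_of_mem k1)).2 ⟨_, k1, (hO _).2 (List.take_prefix _ _)⟩
        rw [k6] at k7
        obtain ⟨v, hv, hvO⟩ := (hD en.2 k3).1 k7
        have k8 := (hO v).1 hvO
        have k9 := hk v (k5 v hv)
        have k10 : v = w.take (i + 1) := by
          rw [List.prefix_iff_eq_take.1 k8, k9]
        rw [k10] at hv
        exact k2' hv
  have hi : w.length + 1 < cs.length := by omega
  have h1 := (key w.length (by omega)).2 le_rfl
  rw [List.take_length] at h1
  have h3 := hL w.length hi
  unfold chkL at h3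
  rw [Bool.and_eq_true, List.all_eq_true] at h3
  have h4 := h3.1 w h1
  rw [hw] at h4
  simp at h4

/-- **One step of the completeness proof** -/
theorem complete_step {k i : ℕ} {C : List (List Bool)} (hC : C.length ≤ k + 2)
    (hCi : ∀ v ∈ C, v.length = i)
    (hout : ∀ H : List (List Bool), H ≠ [] → (∀ v ∈ H, v.length = i + 1) →
      (D (inst f x H)).length ≤ k)
    (hV : ∀ v : List Bool, v.length = i → ¬ V (pairBits x v) = [true]) :
    ∃ (C' : List (List Bool)) (ent : List En), C'.length ≤ k + 2 ∧ (∀ v ∈ C', v.length = i + 1) ∧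
      ent.length ≤ 2 * (k + 2) ∧ (∀ en ∈ ent, (en.1.length ≤ 2 * (k + 2) ∧
        ∀ u ∈ en.1, u.length = i + 1) ∧ (en.2.length ≤ 2 * (k + 2) ∧
        ∀ u ∈ en.2, u.length = i + 1)) ∧ ∀ ent', chkL D f V x (C, ent) (C', ent') = true := by
  classical
  have hk := length_kids hCi
  have hkl : (kids C).length = 2 * C.length := by
    unfold kids
    rw [List.length_flatMap]
    simp [mul_comm]
  set E : Finset (List Bool) := (kids C).toFinset with hE
  have hEc : E.card ≤ 2 * (k + 2) := by
    have h1 := List.toFinset_card_le (kids C)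
    rw [hE]
    omega
  have hEm : ∀ v, v ∈ E ↔ v ∈ kids C := fun v => List.mem_toFinset
  obtain ⟨C', hC'E, hC'c, hC'⟩ := prune k (fun H => D (inst f x H.toList)) E (by
    intro H hH hne
    apply hout
    · intro h
      rw [Finset.toList_eq_nil] at h
      exact hne.ne_empty h
    · intro v hv
      exact hk v ((hEm v).1 (hH (Finset.mem_toList.1 hv))))
  choose! H H' h1 h2 h3 h4 h5 h6 using hC'
  refine ⟨C'.toList, ((E \ C').toList).map fun v => ((H v).toList, (H' v).toList), ?_, ?_, ?_, ?_,
    ?_⟩
  · rw [Finset.length_toList]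
    exact hC'c
  · intro v hv
    exact hk v ((hEm v).1 (hC'E (Finset.mem_toList.1 hv)))
  · rw [List.length_map, Finset.length_toList]
    exact (Finset.card_le_card Finset.sdiff_subset).trans hEc
  · intro en hen
    obtain ⟨v, hv, rfl⟩ := List.mem_map.1 hen
    obtain ⟨hv1, hv2⟩ := Finset.mem_sdiff.1 (Finset.mem_toList.1 hv)
    refine ⟨⟨?_, fun u hu => hk u ((hEm u).1 (h1 v hv1 hv2 (Finset.mem_toList.1 hu)))⟩, ?_,
      fun u hu => hk u ((hEm u).1 (h2 v hv1 hv2 (Finset.mem_toList.1 hu)))⟩
    · show (H v).toList.length ≤ _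
      rw [Finset.length_toList]
      exact (Finset.card_le_card (h1 v hv1 hv2)).trans hEc
    · show (H' v).toList.length ≤ _
      rw [Finset.length_toList]
      exact (Finset.card_le_card (h2 v hv1 hv2)).trans hEc
  · intro ent'
    unfold chkL
    rw [Bool.and_eq_true, Bool.and_eq_true, List.all_eq_true, List.all_eq_true,
      List.all_eq_true]
    refine ⟨fun v hv => ?_, fun v hv => ?_, fun v hv => ?_⟩
    · have := hV v (hCi v hv)
      simp [this]
    · exact (memB_iff _ _).2 ((hEm v).1 (hC'E (Finset.mem_toList.1 hv)))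
    · rw [Bool.or_eq_true, memB_iff, List.any_eq_true]
      by_cases hvC : v ∈ C'
      · exact Or.inl (Finset.mem_toList.2 hvC)
      · have hvE := (hEm v).2 hv
        refine Or.inr ⟨((H v).toList, (H' v).toList), List.mem_map.2 ⟨v, Finset.mem_toList.2
          (Finset.mem_sdiff.2 ⟨hvE, hvC⟩), rfl⟩, ?_⟩
        unfold chkE
        simp only [Bool.and_eq_true, Bool.not_eq_true', List.all_eq_true, memB_iff,
          decide_eq_true_eq, List.isEmpty_eq_false_iff]
        refine ⟨⟨Finset.mem_toList.2 (h4 v hvE hvC), ?_⟩, ?_, ?_, ?_, h6 v hvE hvC⟩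
        · rw [Bool.eq_false_iff]
          intro h
          exact h5 v hvE hvC (Finset.mem_toList.1 ((memB_iff _ _).1 h))
        · intro h
          rw [Finset.toList_eq_nil] at h
          exact (h3 v hvE hvC).ne_empty h
        · exact fun u hu => (hEm u).1 (h1 v hvE hvC (Finset.mem_toList.1 hu))
        · exact fun u hu => (hEm u).1 (h2 v hvE hvC (Finset.mem_toList.1 hu))

/-- **Completeness**: a certificate, with bounds for its size -/
theorem complete {k P : ℕ}
    (hout : ∀ H : List (List Bool), H ≠ [] → (∀ v ∈ H, v.length ≤ P + 1) →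
      (D (inst f x H)).length ≤ k)
    (hV : ∀ v : List Bool, v.length ≤ P → ¬ V (pairBits x v) = [true]) :
    ∀ (j i : ℕ) (C : List (List Bool)), i + j = P + 1 → C.length ≤ k + 2 →
      (∀ v ∈ C, v.length = i) → ∃ cs : List Lv, cs.length = j + 1 ∧
        (cs.map Prod.fst).head? = some C ∧
        ((cs.zip cs.tail).all fun ab => chkL D f V x ab.1 ab.2) = true ∧
        ∀ lv ∈ cs, (lv.1.length ≤ k + 2 ∧ ∀ v ∈ lv.1, v.length ≤ P + 1) ∧
          lv.2.length ≤ 2 * (k + 2) ∧ ∀ en ∈ lv.2, (en.1.length ≤ 2 * (k + 2) ∧
            ∀ u ∈ en.1, u.length ≤ P + 1) ∧ (en.2.length ≤ 2 * (k + 2) ∧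
            ∀ u ∈ en.2, u.length ≤ P + 1) := by
  intro j
  induction j with
  | zero =>
    intro i C hij hC hCi
    refine ⟨[(C, [])], rfl, rfl, rfl, ?_⟩
    intro lv hlv
    rw [List.mem_singleton] at hlv
    subst hlv
    exact ⟨⟨hC, fun v hv => by rw [hCi v hv]; omega⟩, Nat.zero_le _, by simp⟩
  | succ j ih =>
    intro i C hij hC hCi
    obtain ⟨C', ent, h1, h2, h3, h4, h5⟩ := complete_step (D := D) (f := f) (V := V) (x := x) hC
      hCi (fun H hH hv => hout H hH fun v hv' => by rw [hv v hv']; omega)
      (fun v hv => hV v (by omega))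
    obtain ⟨cs, k1, k2, k3, k4⟩ := ih (i + 1) C' (by omega) h1 h2
    refine ⟨(C, ent) :: cs, by rw [List.length_cons, k1], rfl, ?_, ?_⟩
    · cases cs with
      | nil => simp at k1
      | cons b rest =>
        have hb : b.1 = C' := by simpa using k2
        rw [List.tail_cons, List.zip_cons_cons, List.all_cons, Bool.and_eq_true]
        refine ⟨?_, by simpa using k3⟩
        have := h5 b.2
        rw [← hb] at this
        exact this
    · intro lv hlv
      rcases List.mem_cons.1 hlv with rfl | hlv
      · refine ⟨⟨hC, fun v hv => by rw [hCi v hv]; omega⟩, h3, fun en hen => ?_⟩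
        obtain ⟨⟨a1, a2⟩, a3, a4⟩ := h4 en hen
        exact ⟨⟨a1, fun u hu => by rw [a2 u hu]; omega⟩, a3, fun u hu => by rw [a4 u hu]; omega⟩
      · exact k4 lv hlv

end

end Pool.Agent.H593R3.UPC
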