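import Pool.Agent.NPC.Defs

/-!
# OR-compression; unambiguous nondeterministic polynomial time
-/

namespace Pool.Agent.H593R3.UPC

open Pool.Agent.NPC

/-- A finite sequence of strings, written as one string. -/
def enc : List (List Bool) → List Bool
  | [] => []
  | x :: xs => pairBits x (enc xs)

/-- An OR-compression of `R` into `S`: a function `D`, computable in polynomial time, which maps
every nonempty finite sequence of strings of length at most `n` to a string of length at most
`q n`, however long the sequence is, and this string is in `S` if and only if at least one string
of the sequence is in `R`. For `S = R` this is an OR-distillation of `R`. -/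
def ORComp (R S : Set (List Bool)) : Prop :=
  ∃ (D : List Bool → List Bool) (q : Polynomial ℕ), PolyTime D ∧
    ∀ (xs : List (List Bool)) (n : ℕ), xs ≠ [] → (∀ x ∈ xs, x.length ≤ n) →
      (D (enc xs)).length ≤ q.eval n ∧ (D (enc xs) ∈ S ↔ ∃ x ∈ xs, x ∈ R)

/-- The class `UP`: languages in `NP` by means of a polynomial-time algorithm that accepts at most
one certificate for every input. -/
def InUP (L : Set (List Bool)) : Prop :=
  ∃ (V : List Bool → List Bool) (p : Polynomial ℕ), PolyTime V ∧
    (∀ x, x ∈ L ↔ ∃ w : List Bool, w.length ≤ p.eval x.length ∧ V (pairBits x w) = [true]) ∧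
    ∀ x w w' : List Bool, w.length ≤ p.eval x.length → w'.length ≤ p.eval x.length →
      V (pairBits x w) = [true] → V (pairBits x w') = [true] → w = w'

end Pool.Agent.H593R3.UPC
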