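import Pool.Agent.H593R3.UPC.Check

/-!
# An OR-compression of an `NP`-hard language puts the complements of `UP` languages into `NP`
-/

namespace Pool.Agent.H593R3.UPC

open Pool.Agent.NPC Pool.Agent.H622R2

/-! ### The check is computable in polynomial time -/

theorem enc_eq (xs : List (List Bool)) : enc xs = xs.flatMap fun x => pairBits x [] := by
  induction xs with
  | nil => rfl
  | cons x xs ih =>
    rw [enc, ih, List.flatMap_cons]
    simp [pairBits]

theorem poly_inst {α : Type} [TEnc α] {f : List Bool → List Bool} (hf : Poly f)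
    {x : α → List Bool} {H : α → List (List Bool)} (hx : Poly x) (hH : Poly H) :
    Poly (fun a => inst f (x a) (H a)) := by
  have h : Poly (fun a => (H a).flatMap fun v => pairBits (f (pairBits (x a) v)) []) :=
    Poly.flatMap (F := fun a v => pairBits (f (pairBits (x a) v)) []) hH
      (poly_pairBits (hf.comp (poly_pairBits (hx.comp (Poly.fst Poly.id)) (Poly.snd Poly.id)))
        (NPC.Poly.const _))
  refine h.congr fun a => ?_
  unfold inst
  rw [enc_eq, List.flatMap_map]

theorem poly_kids {α : Type} [TEnc α] {C : α → List (List Bool)} (hC : Poly C) :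
    Poly (fun a => kids (C a)) :=
  Poly.flatMap (F := fun _ v => [v ++ [false], v ++ [true]]) hC
    (Poly.cons (Poly.append (Poly.snd Poly.id) (NPC.Poly.const _))
      (Poly.cons (Poly.append (Poly.snd Poly.id) (NPC.Poly.const _)) (NPC.Poly.const [])))

theorem poly_chkE {D f : List Bool → List Bool} (hD : Poly D) (hf : Poly f) {α : Type} [TEnc α]
    {x v : α → List Bool} {E : α → List (List Bool)} {en : α → En} (hx : Poly x) (hE : Poly E)
    (hv : Poly v) (hen : Poly en) : Poly (fun a => chkE D f (x a) (E a) (v a) (en a)) :=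
  Poly.and (Poly.and (poly_memB hv (Poly.fst hen)) (Poly.not (poly_memB hv (Poly.snd hen))))
    (Poly.and (Poly.not (Poly.isEmpty (Poly.snd hen)))
      (Poly.and (Poly.all (p := fun a u => memB u (E a)) (Poly.fst hen)
          (poly_memB (Poly.snd Poly.id) (hE.comp (Poly.fst Poly.id))))
        (Poly.and (Poly.all (p := fun a u => memB u (E a)) (Poly.snd hen)
            (poly_memB (Poly.snd Poly.id) (hE.comp (Poly.fst Poly.id))))
          (Poly.decide_eq (hD.comp (poly_inst hf hx (Poly.fst hen)))
            (hD.comp (poly_inst hf hx (Poly.snd hen)))))))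

theorem poly_chkL {D f V : List Bool → List Bool} (hD : Poly D) (hf : Poly f) (hV : Poly V)
    {α : Type} [TEnc α] {x : α → List Bool} {a b : α → Lv} (hx : Poly x) (ha : Poly a)
    (hb : Poly b) : Poly (fun t => chkL D f V (x t) (a t) (b t)) := by
  have hk : Poly (fun t => kids (a t).1) := poly_kids (Poly.fst ha)
  refine Poly.and (Poly.all (p := fun t v => !(decide (V (pairBits (x t) v) = [true])))
    (Poly.fst ha) (Poly.not (Poly.decide_eq (hV.comp (poly_pairBits (hx.comp (Poly.fst Poly.id))
      (Poly.snd Poly.id))) (NPC.Poly.const _)))) (Poly.and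
    (Poly.all (p := fun t v => memB v (kids (a t).1)) (Poly.fst hb)
      (poly_memB (Poly.snd Poly.id) (hk.comp (Poly.fst Poly.id))))
    (Poly.all (p := fun t v => memB v (b t).1 || (a t).2.any fun en =>
      chkE D f (x t) (kids (a t).1) v en) hk
      (Poly.or (poly_memB (Poly.snd Poly.id) (Poly.fst (hb.comp (Poly.fst Poly.id))))
        (Poly.any (p := fun s en => chkE D f (x s.1) (kids (a s.1).1) s.2 en)
          (Poly.snd (ha.comp (Poly.fst Poly.id)))
          (poly_chkE hD hf (hx.comp (Poly.fst (Poly.fst Poly.id)))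
            (hk.comp (Poly.fst (Poly.fst Poly.id))) (Poly.snd (Poly.fst Poly.id))
            (Poly.snd Poly.id))))))

theorem poly_chk {D f V : List Bool → List Bool} (hD : Poly D) (hf : Poly f) (hV : Poly V)
    (p : Polynomial ℕ) {α : Type} [TEnc α] {x : α → List Bool} {cs : α → List Lv} (hx : Poly x)
    (hcs : Poly cs) : Poly (fun t => chk D f V p (x t) (cs t)) :=
  Poly.and (Poly.decide_eq (Poly.length hcs)
      ((((UPoly.length hx).eval p).add (UPoly.const 2)).toPoly))
    (Poly.and (Poly.decide_eq (Poly.head? (NPC.Poly.map (F := fun _ lv => lv.1) hcs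
        (Poly.fst (Poly.snd Poly.id)))) (NPC.Poly.const _))
      (Poly.all (p := fun t ab => chkL D f V (x t) ab.1 ab.2) (Poly.zip hcs (Poly.tail hcs))
        (poly_chkL hD hf hV (hx.comp (Poly.fst Poly.id)) (Poly.fst (Poly.snd Poly.id))
          (Poly.snd (Poly.snd Poly.id)))))

/-- the certificate coded by a string -/
def dcs (s : List Bool) : List Lv := (unbits (List Lv) s).getD []

theorem dcs_bits (s : List Lv) : dcs (bits s) = s := by
  unfold dcs
  rw [unbits_bits]
  rfl

theorem poly_dcs : Poly dcs :=
  (Poly.optCases (o := unbits (List Lv)) (g := fun _ => ([] : List Lv))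
    (h := fun _ b => b) poly_unbits (NPC.Poly.const _) (Poly.snd Poly.id)).congr fun s => by
      unfold dcs
      cases unbits (List Lv) s <;> rfl

theorem sz_list_le {α : Type} [TEnc α] (B : ℕ) : ∀ l : List α, (∀ z ∈ l, sz z ≤ B) →
    sz l ≤ l.length * (B + 1) + 1 := by
  intro l
  induction l with
  | nil => intro _; simp
  | cons a l ih =>
    intro h
    have h1 := ih fun z hz => h z (List.mem_cons_of_mem _ hz)
    have h2 := h a List.mem_cons_self
    have e : (l.length + 1) * (B + 1) = l.length * (B + 1) + (B + 1) := by ring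
    rw [sz_list_cons, List.length_cons]
    omega

theorem sz_strs {m k : ℕ} {l : List (List Bool)} (h : l.length ≤ m)
    (h' : ∀ z ∈ l, z.length ≤ k) : sz l ≤ m * (4 * k + 2) + 1 := by
  have h1 := sz_list_le (4 * k + 1) l fun z hz => by
    have h2 := sz_listBool_le z
    have h3 := h' z hz
    omega
  have h2 : l.length * (4 * k + 1 + 1) ≤ m * (4 * k + 2) := Nat.mul_le_mul_right _ h
  omega

/-! ### The main theorem -/

/-- the algorithm for the language of the prefixes of certificates -/
def preV (V : List Bool → List Bool) (p : Polynomial ℕ) (z : List Bool) : List Bool :=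
  if ((unpair (unpair z).1).2 ++ (unpair z).2).length ≤ p.eval (unpair (unpair z).1).1.length then
    V (pairBits (unpair (unpair z).1).1 ((unpair (unpair z).1).2 ++ (unpair z).2))
  else []

theorem poly_preV {V : List Bool → List Bool} (hV : Poly V) (p : Polynomial ℕ) :
    Poly (preV V p) := by
  have h1 : Poly (fun z : List Bool => unpair (unpair z).1) :=
    poly_unpair.comp (Poly.fst poly_unpair)
  have h2 : Poly (fun z : List Bool => (unpair (unpair z).1).2 ++ (unpair z).2) :=
    Poly.append (Poly.snd h1) (Poly.snd poly_unpair)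
  exact Poly.ite (Poly.decide_le (Poly.length h2) ((UPoly.length (Poly.fst h1)).eval p).toPoly)
    (hV.comp (poly_pairBits (Poly.fst h1) h2)) (NPC.Poly.const _)

theorem length_pairBits (x w : List Bool) : (pairBits x w).length = 2 * x.length + 1 + w.length := by
  have h : ∀ x : List Bool, (x.flatMap (fun b => [true, b])).length = 2 * x.length := by
    intro x
    induction x with
    | nil => rfl
    | cons b x ih => simp only [List.flatMap_cons, List.length_append, List.length_cons,
        List.length_nil, ih]; ring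
  simp only [pairBits, List.length_append, List.length_cons, h]
  ring

/-- **Main theorem.** -/
theorem main {R S : Set (List Bool)} (hR : NPHard R) (hS : ORComp R S)
    (V : List Bool → List Bool) (p : Polynomial ℕ) (hV : PolyTime V) :
    ∃ L : Set (List Bool), InNP L ∧ ∀ x : List Bool,
      ((¬ ∃ w : List Bool, w.length ≤ p.eval x.length ∧ V (pairBits x w) = [true]) → x ∈ L) ∧
      ((∃! w : List Bool, w.length ≤ p.eval x.length ∧ V (pairBits x w) = [true]) → x ∉ L) := by
  classical
  have pV := poly_of_polyTime hV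
  obtain ⟨D, q, hD, hDq⟩ := hS
  have pD := poly_of_polyTime hD
  set Pre : Set (List Bool) := {y | ∃ u : List Bool, u.length ≤ p.eval y.length ∧
    preV V p (pairBits y u) = [true]} with hPre
  have hPreNP : InNP Pre := ⟨preV V p, p, polyTime_of_poly_list (poly_preV pV p),
    fun y => Iff.rfl⟩
  have hPreM : ∀ x v : List Bool, pairBits x v ∈ Pre ↔ ∃ w : List Bool,
      w.length ≤ p.eval x.length ∧ v <+: w ∧ V (pairBits x w) = [true] := by
    intro x v
    rw [hPre]
    constructor
    · rintro ⟨u, _, hu⟩
      unfold preV at hu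
      simp only [unpair_pairBits] at hu
      split_ifs at hu with h
      exact ⟨v ++ u, h, List.prefix_append _ _, hu⟩
    · rintro ⟨w, h1, ⟨u, rfl⟩, h2⟩
      refine ⟨u, ?_, ?_⟩
      · rw [List.length_append] at h1
        have h3 : p.eval x.length ≤ p.eval (pairBits x v).length := by
          apply eval_mono
          rw [length_pairBits]
          omega
        omega
      · unfold preV
        simp only [unpair_pairBits]
        rw [if_pos h1]
        exact h2
  obtain ⟨f, hf, hfR⟩ := hR Pre hPreNP
  have pf := poly_of_polyTime hf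
  obtain ⟨r, hr⟩ := pf.sz_le
  -- the polynomials
  set Np : Polynomial ℕ := r.comp (Polynomial.C 4 * (Polynomial.C 2 * Polynomial.X +
    Polynomial.C 1 + (p + Polynomial.C 1)) + Polynomial.C 1) with hNp
  set kp : Polynomial ℕ := q.comp Np with hkp
  set hp : Polynomial ℕ := Polynomial.C 2 * (kp + Polynomial.C 2) * (Polynomial.C 4 *
    (p + Polynomial.C 1) + Polynomial.C 2) + Polynomial.C 1 with hhp
  set ep : Polynomial ℕ := Polynomial.C 2 * (kp + Polynomial.C 2) * (Polynomial.C 2 * hp +
    Polynomial.C 2) + Polynomial.C 1 with hep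
  set lp : Polynomial ℕ := (kp + Polynomial.C 2) * (Polynomial.C 4 * (p + Polynomial.C 1) +
    Polynomial.C 2) + Polynomial.C 1 + ep + Polynomial.C 1 with hlp
  set Pp : Polynomial ℕ := (p + Polynomial.C 2) * (lp + Polynomial.C 1) + Polynomial.C 1 with hPp
  have eN : ∀ n, Np.eval n = r.eval (4 * (2 * n + 1 + (p.eval n + 1)) + 1) := by
    intro n
    simp only [hNp, Polynomial.eval_comp, Polynomial.eval_add, Polynomial.eval_mul,
      Polynomial.eval_C, Polynomial.eval_X]
  have ek : ∀ n, kp.eval n = q.eval (Np.eval n) := by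
    intro n
    rw [hkp, Polynomial.eval_comp]
  have eh : ∀ n, hp.eval n = 2 * (kp.eval n + 2) * (4 * (p.eval n + 1) + 2) + 1 := by
    intro n
    simp only [hhp, Polynomial.eval_add, Polynomial.eval_mul, Polynomial.eval_C]
  have ee : ∀ n, ep.eval n = 2 * (kp.eval n + 2) * (2 * hp.eval n + 2) + 1 := by
    intro n
    simp only [hep, Polynomial.eval_add, Polynomial.eval_mul, Polynomial.eval_C]
  have el : ∀ n, lp.eval n = (kp.eval n + 2) * (4 * (p.eval n + 1) + 2) + 1 + ep.eval n + 1 := by
    intro n
    simp only [hlp, Polynomial.eval_add, Polynomial.eval_mul, Polynomial.eval_C]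
  have eP : ∀ n, Pp.eval n = (p.eval n + 2) * (lp.eval n + 1) + 1 := by
    intro n
    simp only [hPp, Polynomial.eval_add, Polynomial.eval_mul, Polynomial.eval_C]
  have hflen : ∀ x v : List Bool, v.length ≤ p.eval x.length + 1 →
      (f (pairBits x v)).length ≤ Np.eval x.length := by
    intro x v hv
    have h1 := length_lt_sz (f (pairBits x v))
    have h2 := hr (pairBits x v)
    have h3 := sz_listBool_le (pairBits x v)
    rw [length_pairBits] at h3
    rw [eN]
    exact h1.le.trans (h2.trans (eval_mono _ (by omega)))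
  have hDlen : ∀ (x : List Bool) (H : List (List Bool)), H ≠ [] →
      (∀ v ∈ H, v.length ≤ p.eval x.length + 1) →
      (D (inst f x H)).length ≤ kp.eval x.length := by
    intro x H hH hv
    rw [ek]
    exact (hDq (H.map fun v => f (pairBits x v)) _ (by simpa using hH) (by
      intro y hy
      obtain ⟨v, hv', rfl⟩ := List.mem_map.1 hy
      exact hflen x v (hv v hv'))).1
  have hDS : ∀ (x : List Bool) (H : List (List Bool)), H ≠ [] →
      (D (inst f x H) ∈ S ↔ ∃ v ∈ H, pairBits x v ∈ Pre) := by
    intro x H hH
    obtain ⟨n, hn⟩ : ∃ n : ℕ, ∀ y ∈ H.map (fun v => f (pairBits x v)), y.length ≤ n :=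
      ⟨((H.map (fun v => f (pairBits x v))).map List.length).sum, fun y hy =>
        List.le_sum_of_mem (List.mem_map_of_mem hy)⟩
    unfold inst
    rw [(hDq (H.map fun v => f (pairBits x v)) n (by simpa using hH) hn).2]
    constructor
    · rintro ⟨y, hy, hyR⟩
      obtain ⟨v, hv, rfl⟩ := List.mem_map.1 hy
      exact ⟨v, hv, (hfR _).2 hyR⟩
    · rintro ⟨v, hv, hvR⟩
      exact ⟨_, List.mem_map_of_mem hv, (hfR _).1 hvR⟩
  have hV' : Poly (fun y => if chk D f V p (unpair y).1 (dcs (unpair y).2) = true then [true] else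
      ([] : List Bool)) :=
    Poly.ite (Poly.decide_bool (poly_chk pD pf pV p (Poly.fst poly_unpair)
      (poly_dcs.comp (Poly.snd poly_unpair)))) (NPC.Poly.const _) (NPC.Poly.const _)
  refine ⟨_, ⟨_, Pp, polyTime_of_poly_list hV', fun x => Iff.rfl⟩, fun x => ⟨?_, ?_⟩⟩
  · intro hno
    obtain ⟨cs, h1, h2, h3, h4⟩ := complete (D := D) (f := f) (V := V) (x := x)
      (k := kp.eval x.length) (P := p.eval x.length) (hDlen x)
      (fun v hv h => hno ⟨v, hv, h⟩) (p.eval x.length + 1) 0 [[]] (by omega) (by simp)
      (by simp)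
    refine ⟨bits cs, ?_, ?_⟩
    · rw [bits_length]
      have hlv : ∀ lv ∈ cs, sz lv ≤ lp.eval x.length := by
        intro lv hlv
        obtain ⟨⟨a1, a2⟩, a3, a4⟩ := h4 lv hlv
        have b1 := sz_strs a1 a2
        have b2 := sz_list_le (2 * hp.eval x.length + 1) lv.2 (by
          intro en hen
          obtain ⟨⟨c1, c2⟩, c3, c4⟩ := a4 en hen
          have d1 := sz_strs c1 c2
          have d2 := sz_strs c3 c4
          have d3 := eh x.length
          have d4 : sz en = sz en.1 + sz en.2 + 1 := sz_pair _ _
          omega)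
        have b3 : lv.2.length * (2 * hp.eval x.length + 1 + 1) ≤
            2 * (kp.eval x.length + 2) * (2 * hp.eval x.length + 2) := Nat.mul_le_mul_right _ a3
        have b4 := el x.length
        have b5 := ee x.length
        have b6 : sz lv = sz lv.1 + sz lv.2 + 1 := sz_pair _ _
        omega
      have g1 := sz_list_le (lp.eval x.length) cs hlv
      have g2 := eP x.length
      have g3 : cs.length = p.eval x.length + 2 := h1
      rw [g3] at g1
      omega
    · have h5 : chk D f V p x cs = true := by
        unfold chk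
        rw [Bool.and_eq_true, Bool.and_eq_true, decide_eq_true_iff, decide_eq_true_iff]
        exact ⟨by omega, h2, h3⟩
      simp only [unpair_pairBits, dcs_bits]
      rw [if_pos h5]
  · rintro ⟨w, ⟨hw1, hw2⟩, hw3⟩ ⟨c, _, hc⟩
    simp only [unpair_pairBits] at hc
    split_ifs at hc with h
    refine sound (S := S) (O := fun v => pairBits x v ∈ Pre) (hDS x) (w := w) ?_ hw2 hw1 _ h
    intro v
    rw [hPreM]
    constructor
    · rintro ⟨w', g1, g2, g3⟩
      have := hw3 w' ⟨g1, g3⟩
      rw [← this]
      exact g2
    · intro hv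
      exact ⟨w, hw1, hv, hw2⟩

theorem up_in_conp {R S : Set (List Bool)} (hR : NPHard R) (hS : ORComp R S)
    {L : Set (List Bool)} (hL : InUP L) : InNP Lᶜ := by
  obtain ⟨V, p, hV, h1, h2⟩ := hL
  obtain ⟨L', hL', h3⟩ := main hR hS V p hV
  have : Lᶜ = L' := by
    ext x
    rw [Set.mem_compl_iff, h1]
    constructor
    · exact (h3 x).1
    · rintro hx ⟨w, hw1, hw2⟩
      refine (h3 x).2 ⟨w, ⟨hw1, hw2⟩, ?_⟩ hx
      rintro w' ⟨g1, g2⟩
      exact h2 x w' w g1 hw1 g2 hw2
  rw [this]
  exact hL'

end Pool.Agent.H593R3.UPC
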