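import Pool.Agent.H593R3.UPC.Defs
import Pool.Agent.NPC.Dec
import Pool.Agent.H622R2.CoNP

/-!
# Pruning by collisions
-/

namespace Pool.Agent.H593R3.UPC

open Pool.Agent.NPC

/-- strings of length at most `k`, padded -/
def padTo (k : ℕ) (z : List Bool) : List Bool := List.replicate (k - z.length) true ++ false :: z

theorem padTo_length {k : ℕ} {z : List Bool} (h : z.length ≤ k) : (padTo k z).length = k + 1 := by
  unfold padTo
  simp only [List.length_append, List.length_replicate, List.length_cons]
  omega

theorem rep_inj : ∀ (a b : ℕ) (l l' : List Bool),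
    List.replicate a true ++ false :: l = List.replicate b true ++ false :: l' → l = l' := by
  intro a
  induction a with
  | zero =>
    intro b l l' h
    cases b with
    | zero => simpa using h
    | succ b => simp [List.replicate_succ] at h
  | succ a ih =>
    intro b l l' h
    cases b with
    | zero => simp [List.replicate_succ] at h
    | succ b =>
      simp only [List.replicate_succ, List.cons_append, List.cons.injEq, true_and] at h
      exact ih b l l' h

open Finset

/-- If all outputs for nonempty subsets of `E` have length at most `k`, then all but `k + 2` of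
the elements of `E` are separated by two nonempty subsets with the same output. -/
theorem prune (k : ℕ) (out : Finset (List Bool) → List Bool) (E : Finset (List Bool))
    (hout : ∀ H ⊆ E, H.Nonempty → (out H).length ≤ k) :
    ∃ C ⊆ E, C.card ≤ k + 2 ∧ ∀ v ∈ E, v ∉ C → ∃ H H' : Finset (List Bool), H ⊆ E ∧ H' ⊆ E ∧
      H'.Nonempty ∧ v ∈ H ∧ v ∉ H' ∧ out H = out H' := by
  classical
  let P : Finset (List Bool) → Prop := fun C => ∀ v ∈ E, v ∉ C →
    ∃ H H' : Finset (List Bool), H ⊆ E ∧ H' ⊆ E ∧ H'.Nonempty ∧ v ∈ H ∧ v ∉ H' ∧ out H = out H'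
  have key : ∀ (n : ℕ) (C : Finset (List Bool)), C.card = n → C ⊆ E → P C →
      ∃ C' ⊆ E, C'.card ≤ k + 2 ∧ P C' := by
    intro n
    induction n with
    | zero => exact fun C hC hCE hP => ⟨C, hCE, by omega, hP⟩
    | succ n ih =>
      intro C hC hCE hP
      by_cases hsmall : C.card ≤ k + 2
      · exact ⟨C, hCE, hsmall, hP⟩
      set F : Finset (Finset (List Bool)) := C.powerset.erase ∅ with hF
      have hFc : F.card = 2 ^ C.card - 1 := by
        rw [hF, card_erase_of_mem (empty_mem_powerset C), card_powerset]
      have hFm : ∀ H ∈ F, H ⊆ C ∧ H.Nonempty := by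
        intro H hH
        rw [hF, mem_erase, mem_powerset] at hH
        exact ⟨hH.2, nonempty_iff_ne_empty.2 hH.1⟩
      set Z : Finset (List Bool) := F.image out with hZ
      have hZlen : ∀ z ∈ Z, z.length ≤ k := by
        intro z hz
        rw [hZ, mem_image] at hz
        obtain ⟨H, hH, rfl⟩ := hz
        exact hout H ((hFm H hH).1.trans hCE) (hFm H hH).2
      have hZc : Z.card ≤ 2 ^ (k + 1) := by
        have h1 : Fintype.card Z ≤ Fintype.card (List.Vector Bool (k + 1)) := by
          refine Fintype.card_le_of_injective (fun z => (⟨padTo k z.1, padTo_length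
            (hZlen z.1 z.2)⟩ : List.Vector Bool (k + 1))) ?_
          intro z z' h
          have h2 : padTo k z.1 = padTo k z'.1 := congrArg Subtype.val h
          exact Subtype.ext (rep_inj _ _ _ _ h2)
        rwa [card_vector, Fintype.card_bool, Fintype.card_coe] at h1
      have hlt : Z.card < F.card := by
        have h1 : 2 ^ (k + 3) ≤ 2 ^ C.card := Nat.pow_le_pow_right (by norm_num) (by omega)
        have h2 : 2 ^ (k + 3) = 4 * 2 ^ (k + 1) := by ring
        have h3 : 0 < 2 ^ (k + 1) := Nat.pow_pos (by norm_num)
        omega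
      obtain ⟨H, hH, H', hH', hne, heq⟩ :=
        exists_ne_map_eq_of_card_lt_of_maps_to hlt (fun H hH => mem_image_of_mem out hH)
      have fin : ∀ H ∈ F, ∀ H' ∈ F, out H = out H' → ∀ v ∈ H, v ∉ H' →
          ∃ C' ⊆ E, C'.card ≤ k + 2 ∧ P C' := by
        intro H hH H' hH' heq v hv hv'
        refine ih (C.erase v) ?_ ((erase_subset _ _).trans hCE) ?_
        · rw [card_erase_of_mem ((hFm H hH).1 hv), hC]
          rfl
        · intro u hu huC
          by_cases h : u = v
          · rw [h]
            exact ⟨H, H', (hFm H hH).1.trans hCE, (hFm H' hH').1.trans hCE, (hFm H' hH').2,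
              hv, hv', heq⟩
          · exact hP u hu fun h' => huC (mem_erase.2 ⟨h, h'⟩)
      by_cases hsub : H ⊆ H'
      · obtain ⟨v, hv, hv'⟩ : ∃ v ∈ H', v ∉ H := by
          by_contra hcon
          push Not at hcon
          exact hne (subset_antisymm hsub hcon)
        exact fin H' hH' H hH heq.symm v hv hv'
      · rw [not_subset] at hsub
        obtain ⟨v, hv, hv'⟩ := hsub
        exact fin H hH H' hH' heq v hv hv'
  exact key E.card E rfl subset_rfl fun v hv hv' => absurd hv hv'

end Pool.Agent.H593R3.UPC
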